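import Mathlib

/-!
A finite Jordan ring (commutative, satisfying the Jordan identity) with an automorphism group of
order three, without elements of additive order three, whose fixed subring is zero, and which is
not solvable.
-/

open Matrix

namespace Pool.Agent.Results.MP_8ae111_al.JordanC3

/-- The derived series of an additive subgroup of a ring: `S, SS, (SS)(SS), …`, where a product
of two subgroups is the additive subgroup generated by the products of their elements. -/
def derived {A : Type} [NonUnitalNonAssocRing A] (S : AddSubgroup A) : ℕ → AddSubgroup A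
  | 0 => S
  | n + 1 => AddSubgroup.closure {z | ∃ x ∈ derived S n, ∃ y ∈ derived S n, z = x * y}

/-- Solvability: some term of the derived series is zero. -/
def Solvable {A : Type} [NonUnitalNonAssocRing A] (S : AddSubgroup A) : Prop :=
  ∃ n, derived S n = ⊥

/-- The fixed subring (as an additive subgroup) of a group of ring automorphisms. -/
def fixed {A : Type} [NonUnitalNonAssocRing A] (G : Subgroup (A ≃+* A)) : AddSubgroup A where
  carrier := {a | ∀ g ∈ G, g a = a}
  add_mem' := by
    intro a b ha hb g hg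
    rw [map_add, ha g hg, hb g hg]
  zero_mem' := by
    intro g _
    exact map_zero g
  neg_mem' := by
    intro a ha g hg
    rw [map_neg, ha g hg]

/-- The field with four elements. -/
abbrev K : Type := GaloisField 2 2

/-- The underlying additive group of the example. -/
structure Alg : Type where
  /-- first component -/
  fst : Fin 3 → K
  /-- second component -/
  snd : Fin 3 → K

@[ext] theorem Alg.ext' {x y : Alg} (h1 : x.fst = y.fst) (h2 : x.snd = y.snd) : x = y := by
  cases x; cases y; simp_all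

/-- Equivalence with the product. -/
def toProd : Alg ≃ (Fin 3 → K) × (Fin 3 → K) where
  toFun x := (x.fst, x.snd)
  invFun x := ⟨x.1, x.2⟩
  left_inv _ := rfl
  right_inv _ := rfl

noncomputable instance : AddCommGroup Alg := toProd.addCommGroup

theorem fst_add (x y : Alg) : (x + y).fst = x.fst + y.fst := rfl
theorem snd_add (x y : Alg) : (x + y).snd = x.snd + y.snd := rfl
theorem fst_zero : (0 : Alg).fst = 0 := rfl
theorem snd_zero : (0 : Alg).snd = 0 := rfl

noncomputable instance : Mul Alg := ⟨fun x y => ⟨x.snd ⨯₃ y.snd, x.fst ⨯₃ y.fst⟩⟩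

theorem fst_mul (x y : Alg) : (x * y).fst = x.snd ⨯₃ y.snd := rfl
theorem snd_mul (x y : Alg) : (x * y).snd = x.fst ⨯₃ y.fst := rfl

noncomputable instance : NonUnitalNonAssocRing Alg :=
  { (inferInstance : AddCommGroup Alg) with
    mul := (· * ·)
    left_distrib := by
      intro a b c
      apply Alg.ext'
      · rw [fst_mul, fst_add, fst_mul, fst_mul, snd_add, map_add]
      · rw [snd_mul, snd_add, snd_mul, snd_mul, fst_add, map_add]
    right_distrib := by
      intro a b c
      apply Alg.ext'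
      · rw [fst_mul, fst_add, fst_mul, fst_mul, snd_add, map_add, LinearMap.add_apply]
      · rw [snd_mul, snd_add, snd_mul, snd_mul, fst_add, map_add, LinearMap.add_apply]
    zero_mul := by
      intro a
      apply Alg.ext'
      · rw [fst_mul, snd_zero, map_zero, LinearMap.zero_apply, fst_zero]
      · rw [snd_mul, fst_zero, map_zero, LinearMap.zero_apply, snd_zero]
    mul_zero := by
      intro a
      apply Alg.ext'
      · rw [fst_mul, snd_zero, map_zero, fst_zero]
      · rw [snd_mul, fst_zero, map_zero, snd_zero] }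

theorem K_add_self (a : K) : a + a = 0 := CharTwo.add_self_eq_zero a

theorem vec_add_self (a : Fin 3 → K) : a + a = 0 := by
  ext i; exact K_add_self _

theorem alg_add_self (a : Alg) : a + a = 0 := by
  apply Alg.ext'
  · rw [fst_add, vec_add_self, fst_zero]
  · rw [snd_add, vec_add_self, snd_zero]

theorem vec_neg (a : Fin 3 → K) : -a = a := by
  rw [neg_eq_iff_add_eq_zero]; exact vec_add_self a

theorem cross_comm (a b : Fin 3 → K) : a ⨯₃ b = b ⨯₃ a := by
  rw [← cross_anticomm, vec_neg]

theorem alg_comm (x y : Alg) : x * y = y * x := by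
  apply Alg.ext'
  · rw [fst_mul, fst_mul, cross_comm]
  · rw [snd_mul, snd_mul, cross_comm]

theorem alg_sq (x : Alg) : x * x = 0 := by
  apply Alg.ext'
  · rw [fst_mul, cross_self, fst_zero]
  · rw [snd_mul, cross_self, snd_zero]

open Classical in
theorem exists_omega : ∃ w : K, w ≠ 1 ∧ w ^ 3 = 1 := by
  letI : Fintype K := Fintype.ofFinite K
  have hcard : Fintype.card K = 4 := by
    have := GaloisField.card 2 2 (by norm_num)
    rw [Nat.card_eq_fintype_card] at this
    simpa using this
  have h1 : ∃ x : K, x ≠ 0 ∧ x ≠ 1 := by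
    by_contra hcon
    push Not at hcon
    have h2 : (Finset.univ : Finset K) ⊆ {0, 1} := by
      intro x _
      by_cases h : x = 0
      · simp [h]
      · simp [hcon x h]
    have h3 := Finset.card_le_card h2
    rw [Finset.card_univ, hcard] at h3
    have h4 := Finset.card_le_two (a := (0 : K)) (b := 1)
    omega
  obtain ⟨w, hw0, hw1⟩ := h1
  refine ⟨w, hw1, ?_⟩
  have := FiniteField.pow_card_sub_one_eq_one w hw0
  rw [hcard] at this
  simpa using this

/-- The automorphism of order three. -/
noncomputable def rot (w : K) (hw : w ^ 3 = 1) : Alg ≃+* Alg where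
  toFun x := ⟨w • x.fst, w ^ 2 • x.snd⟩
  invFun x := ⟨w ^ 2 • x.fst, w • x.snd⟩
  left_inv x := by
    have h1 : w ^ 2 * w = 1 := by rw [← hw]; ring
    have h2 : w * w ^ 2 = 1 := by rw [← hw]; ring
    apply Alg.ext'
    · simp only [smul_smul, h1, one_smul]
    · simp only [smul_smul, h2, one_smul]
  right_inv x := by
    have h1 : w ^ 2 * w = 1 := by rw [← hw]; ring
    have h2 : w * w ^ 2 = 1 := by rw [← hw]; ring
    apply Alg.ext'
    · simp only [smul_smul, h2, one_smul]
    · simp only [smul_smul, h1, one_smul]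
  map_mul' x y := by
    apply Alg.ext'
    · rw [fst_mul, fst_mul]
      simp only [map_smul, LinearMap.smul_apply, smul_smul]
      congr 1
      calc w = w ^ 3 * w := by rw [hw, one_mul]
        _ = w ^ 2 * w ^ 2 := by ring
    · rw [snd_mul, snd_mul]
      simp only [map_smul, LinearMap.smul_apply, smul_smul]
      congr 1
      ring
  map_add' x y := by
    apply Alg.ext'
    · rw [fst_add, fst_add, smul_add]
    · rw [snd_add, snd_add, smul_add]

theorem rot_apply (w : K) (hw : w ^ 3 = 1) (x : Alg) :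
    rot w hw x = ⟨w • x.fst, w ^ 2 • x.snd⟩ := rfl

theorem rot_pow (w : K) (hw : w ^ 3 = 1) : (rot w hw) ^ 3 = 1 := by
  apply RingEquiv.ext
  intro x
  rw [pow_succ, pow_two]
  simp only [RingAut.mul_apply, RingAut.one_apply, rot_apply, smul_smul]
  have h1 : w * (w * w) = 1 := by rw [← hw]; ring
  have h2 : w ^ 2 * (w ^ 2 * w ^ 2) = 1 := by
    have : w ^ 2 * (w ^ 2 * w ^ 2) = w ^ 3 * w ^ 3 := by ring
    rw [this, hw, one_mul]
  apply Alg.ext'
  · simp only [h1, one_smul]
  · simp only [h2, one_smul]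

theorem eq_zero_of_smul {c : K} (hc : c ≠ 1) {u : Fin 3 → K} (h : c • u = u) : u = 0 := by
  ext i
  have h1 := congrFun h i
  simp only [Pi.smul_apply, smul_eq_mul] at h1
  have h2 : (c - 1) * u i = 0 := by rw [sub_mul, h1, one_mul, sub_self]
  rcases mul_eq_zero.mp h2 with h3 | h3
  · exact absurd (sub_eq_zero.mp h3) hc
  · exact h3

theorem decomp_fst (u : Fin 3 → K) : (⟨u, 0⟩ : Alg) =
    (⟨0, ![0, u 0, 0]⟩ : Alg) * ⟨0, ![0, 0, 1]⟩ + (⟨0, ![0, 0, u 1]⟩ : Alg) * ⟨0, ![1, 0, 0]⟩ +
      (⟨0, ![u 2, 0, 0]⟩ : Alg) * ⟨0, ![0, 1, 0]⟩ := by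
  apply Alg.ext'
  · rw [fst_add, fst_add, fst_mul, fst_mul, fst_mul]
    ext i
    fin_cases i <;> simp [cross_apply]
  · rw [snd_add, snd_add, snd_mul, snd_mul, snd_mul]
    simp

theorem decomp_snd (u : Fin 3 → K) : (⟨0, u⟩ : Alg) =
    (⟨![0, u 0, 0], 0⟩ : Alg) * ⟨![0, 0, 1], 0⟩ + (⟨![0, 0, u 1], 0⟩ : Alg) * ⟨![1, 0, 0], 0⟩ +
      (⟨![u 2, 0, 0], 0⟩ : Alg) * ⟨![0, 1, 0], 0⟩ := by
  apply Alg.ext'
  · rw [fst_add, fst_add, fst_mul, fst_mul, fst_mul]
    simp
  · rw [snd_add, snd_add, snd_mul, snd_mul, snd_mul]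
    ext i
    fin_cases i <;> simp [cross_apply]

theorem derived_top (n : ℕ) : derived (⊤ : AddSubgroup Alg) n = ⊤ := by
  induction n with
  | zero => rfl
  | succ n ih =>
    rw [eq_top_iff]
    rintro x -
    have hmem : ∀ a b : Alg, a * b ∈ derived (⊤ : AddSubgroup Alg) (n + 1) := by
      intro a b
      apply AddSubgroup.subset_closure
      exact ⟨a, by rw [ih]; trivial, b, by rw [ih]; trivial, rfl⟩
    have hx : x = (⟨x.fst, 0⟩ : Alg) + ⟨0, x.snd⟩ := by
      apply Alg.ext'
      · rw [fst_add, add_zero]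
      · rw [snd_add, zero_add]
    have m1 : (⟨x.fst, 0⟩ : Alg) ∈ derived (⊤ : AddSubgroup Alg) (n + 1) := by
      rw [decomp_fst]
      exact add_mem (add_mem (hmem _ _) (hmem _ _)) (hmem _ _)
    have m2 : (⟨0, x.snd⟩ : Alg) ∈ derived (⊤ : AddSubgroup Alg) (n + 1) := by
      rw [decomp_snd]
      exact add_mem (add_mem (hmem _ _) (hmem _ _)) (hmem _ _)
    rw [hx]
    exact add_mem m1 m2

/-- A Jordan ring without `|G|`-torsion, `G` a finite group of automorphisms, whose fixed subring
is zero (in particular solvable), but which is not solvable. -/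
theorem result : ∃ (A : Type) (_ : NonUnitalNonAssocRing A) (G : Subgroup (A ≃+* A)),
    (∀ x y : A, x * y = y * x) ∧
    (∀ x y : A, ((x * x) * y) * x = (x * x) * (y * x)) ∧
    Finite G ∧
    (∀ a : A, Nat.card G • a = 0 → a = 0) ∧
    Solvable (fixed G) ∧
    ¬ Solvable (⊤ : AddSubgroup A) := by
  obtain ⟨w, hw1, hw⟩ := exists_omega
  have hw2 : w ^ 2 ≠ 1 := by
    intro h
    apply hw1
    calc w = w ^ 2 * w := by rw [h, one_mul]
      _ = w ^ 3 := by ring
      _ = 1 := hw
  have hne : rot w hw ≠ 1 := by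
    intro h
    have h1 := RingEquiv.congr_fun h (⟨fun _ => 1, 0⟩ : Alg)
    rw [rot_apply] at h1
    have h2 : w • (fun _ => (1 : K) : Fin 3 → K) = fun _ => 1 := congrArg Alg.fst h1
    have h3 := congrFun (eq_zero_of_smul hw1 h2) 0
    exact one_ne_zero h3
  have hord : orderOf (rot w hw) = 3 := by
    haveI : Fact (Nat.Prime 3) := ⟨by norm_num⟩
    exact orderOf_eq_prime (rot_pow w hw) hne
  have hcard : Nat.card (Subgroup.zpowers (rot w hw)) = 3 := by
    rw [Nat.card_zpowers, hord]
  refine ⟨Alg, inferInstance, Subgroup.zpowers (rot w hw), alg_comm, ?_, ?_, ?_, ?_, ?_⟩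
  · intro x y
    rw [alg_sq, zero_mul, zero_mul, zero_mul]
  · exact Nat.finite_of_card_ne_zero (by rw [hcard]; norm_num)
  · intro a ha
    rw [hcard] at ha
    have h3 : (3 : ℕ) • a = a := by
      rw [show (3 : ℕ) = 2 + 1 from rfl, add_nsmul, two_nsmul, alg_add_self, zero_add, one_nsmul]
    rw [h3] at ha
    exact ha
  · refine ⟨0, ?_⟩
    change fixed _ = ⊥
    rw [eq_bot_iff]
    intro a ha
    have h1 : rot w hw a = a := ha _ (Subgroup.mem_zpowers _)
    rw [rot_apply] at h1
    have h2 : w • a.fst = a.fst := congrArg Alg.fst h1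
    have h3 : w ^ 2 • a.snd = a.snd := congrArg Alg.snd h1
    rw [AddSubgroup.mem_bot]
    apply Alg.ext'
    · rw [eq_zero_of_smul hw1 h2, fst_zero]
    · rw [eq_zero_of_smul hw2 h3, snd_zero]
  · rintro ⟨n, hn⟩
    rw [derived_top] at hn
    have h1 : (⟨fun _ => 1, 0⟩ : Alg) ∈ (⊤ : AddSubgroup Alg) := trivial
    rw [hn, AddSubgroup.mem_bot] at h1
    have h2 : (fun _ => (1 : K) : Fin 3 → K) = 0 := congrArg Alg.fst h1
    exact one_ne_zero (congrFun h2 0)

end Pool.Agent.Results.MP_8ae111_al.JordanC3
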